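import Pool.Agent.H41.HYP.S3

/-!
# HYP: DDM, SE1, USM
-/

set_option autoImplicit false

namespace Pool.HYP

open Polynomial Matrix Pool.AVS

theorem ddm : DDMStmt := by
  intro g d hd hs
  have hrev : ∀ i : Fin (2 * g + 1), ((i.rev : Fin (2 * g + 1)) : ℕ) = 2 * g - i := by
    intro i
    rw [Fin.val_rev]
    omega
  have hneg : ∀ i : Fin (2 * g + 1), (i : ℕ) ≤ g → d i ≤ 0 := by
    intro i hi
    have h1 : i ≤ i.rev := by
      rw [Fin.le_def, hrev]
      omega
    have h2 := hd h1
    have h3 := hs i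
    linarith
  refine ⟨fun i => (-(d ⟨i, by omega⟩)).toNat, ?_, ?_⟩
  · intro i i' hii
    have hle : (i : ℕ) ≤ (i' : ℕ) := Fin.le_def.1 hii
    have h1 : d ⟨(i : ℕ), by omega⟩ ≤ d ⟨(i' : ℕ), by omega⟩ := hd (Fin.mk_le_mk.2 hle)
    show (-(d ⟨(i' : ℕ), _⟩)).toNat ≤ (-(d ⟨(i : ℕ), _⟩)).toNat
    omega
  · funext i
    unfold dd
    by_cases h : (i : ℕ) < g
    · rw [dif_pos h]
      have h1 := hneg i h.le
      have h2 : (⟨(i : ℕ), by omega⟩ : Fin (2 * g + 1)) = i := rfl
      simp only
      rw [Int.toNat_of_nonneg (by linarith)]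
      ring
    · rw [dif_neg h]
      by_cases h' : 2 * g - (i : ℕ) < g
      · rw [dif_pos h']
        have h2 : (⟨2 * g - (i : ℕ), by omega⟩ : Fin (2 * g + 1)) = i.rev := by
          apply Fin.ext
          rw [hrev]
        have h1 := hneg i.rev (by rw [hrev]; omega)
        have h3 := hs i
        simp only
        rw [h2, Int.toNat_of_nonneg (by linarith)]
        linarith
      · rw [dif_neg h']
        have h1 : (i : ℕ) = g := by
          have := i.2
          omega
        have h2 : i.rev = i := by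
          apply Fin.ext
          rw [hrev]
          omega
        have h3 := hs i
        rw [h2] at h3
        linarith

theorem locAt_one {F : Type} [Field F] (L : Type) [Field L] [Algebra (RatFunc F) L]
    (f : F[X][X]) : LocAt L f 1 := by
  refine ⟨1, by simp, 1, 0, 1, monic_one, isCoprime_one_left, one_dvd _, ?_⟩
  simp

theorem se1 : SE1Stmt := by
  intro F _ f _
  refine ⟨1, rfl, ?_, fun v => locAt_one _ f, locAt_one _ f⟩
  rw [Units.val_one, map_one]
  exact IsSquare.one

theorem usm : USMStmt := by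
  rintro F _ P f h h' ⟨s, p, hs, hd, a, b, c, hu⟩ ⟨s', p', hs', hd', a', b', c', hu'⟩
  refine ⟨s * s', p * p', hs.mul_left hs', ?_, ?_⟩
  · obtain ⟨e, he⟩ := hd
    obtain ⟨e', he'⟩ := hd'
    refine ⟨e * (h' * s' ^ 2) + e' * fK p, ?_⟩
    have h1 : fK (p * p') = fK p * fK p' := Polynomial.map_mul _
    rw [h1]
    linear_combination (h' * s' ^ 2) * he + fK p * he'
  · refine ⟨a * a', a * p * b' + b, a * p * c' + c, ?_⟩
    linear_combination hu + (a * p) * hu'

end Pool.HYP
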